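import Pool.Agent.helper32.TRI.Spec

/-!
# Project TRI (MP_561ff4_al), row BX4: a root vector with two prescribed form values
-/

set_option autoImplicit false

open Finset

namespace Pool.Agent.TRI

open Pool.Agent.EXC

theorem BX4_ip : ip C4 (sr 1) (sr 1) = 2 ∧ ip C4 (sr 1) (-th4) = -1 ∧ ip C4 th4 (sr 1 + -th4) = -1 ∧ ip C4 (th4 - sr 1) (-th4) = -1 ∧
    ip C4 (th4 - sr 1) th4 = 1 ∧ ip C4 (sr 1) (th4 - sr 1) = -1 ∧ ip C4 (sr 1 + -th4) (sr 1 + -th4) = 2 ∧ ip C4 th4 th4 = 2 ∧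
    ip C4 (-th4) (-th4) = 2 ∧ ip C4 (th4 - sr 1) (th4 - sr 1) = 2 ∧ ip C4 (-sr 1) (-sr 1) = 2 ∧ ip C4 (sr 1) th4 = 1 := by
  decide +kernel

theorem BX4_ip3 : ∀ i : Fin 4, i ≠ 1 → ip C4 (sr i) (sr i) = 2 ∧ ip C4 (sr 1 + sr i - th4) (-(sr 1 + sr i)) = -1 ∧
    ip C4 (sr 1) (-(sr 1 + sr i)) = -1 ∧ ip C4 (-sr i) (-sr i) = 2 ∧ ip C4 (sr 1 + sr i - th4) (sr 1 + sr i - th4) = 2 ∧
    ip C4 (-(sr 1 + sr i)) (-(sr 1 + sr i)) = 2 := by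
  decide +kernel

theorem BX4_add : th4 + (sr 1 + -th4) = (sr 1 : Fin 4 → ℤ) ∧ (th4 - sr 1) + -th4 = (-sr 1 : Fin 4 → ℤ) ∧ sr 1 + (th4 - sr 1) = (th4 : Fin 4 → ℤ) ∧
    -(th4 - sr 1) = (sr 1 + -th4 : Fin 4 → ℤ) ∧ -(-sr 1) = (sr 1 : Fin 4 → ℤ) ∧ -(-th4) = (th4 : Fin 4 → ℤ) := by
  decide +kernel

theorem BX4_add3 : ∀ i : Fin 4, i ≠ 1 → (sr 1 + sr i - th4) + -(sr 1 + sr i) = (-th4 : Fin 4 → ℤ) ∧ sr 1 + -(sr 1 + sr i) = (-sr i : Fin 4 → ℤ) := by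
  decide +kernel

theorem BX4_ne : (-th4 : Fin 4 → ℤ) ≠ sr 1 + -th4 ∧ (sr 1 + -th4 : Fin 4 → ℤ) ≠ -th4 ∧ (-th4 : Fin 4 → ℤ) ≠ th4 ∧
    (-th4 : Fin 4 → ℤ) ≠ sr 1 ∧ (sr 1 : Fin 4 → ℤ) ≠ -th4 ∧ (sr 1 : Fin 4 → ℤ) ≠ th4 ∧ (sr 1 : Fin 4 → ℤ) ≠ sr 1 + -th4 ∧
    (-th4 : Fin 4 → ℤ) ≠ -sr 1 ∧ (-th4 : Fin 4 → ℤ) ≠ th4 - sr 1 ∧ (th4 : Fin 4 → ℤ) ≠ -th4 ∧ (th4 : Fin 4 → ℤ) ≠ sr 1 + -th4 ∧
    (th4 : Fin 4 → ℤ) ≠ -sr 1 ∧ (th4 : Fin 4 → ℤ) ≠ sr 1 ∧ (th4 : Fin 4 → ℤ) ≠ th4 - sr 1 := by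
  decide +kernel

theorem BX4_ne3 : ∀ i : Fin 4, i ≠ 1 → (-th4 : Fin 4 → ℤ) ≠ -(sr 1 + sr i) ∧ (-th4 : Fin 4 → ℤ) ≠ -sr i ∧
    (-sr i : Fin 4 → ℤ) ≠ -(sr 1 + sr i) ∧ (-sr i : Fin 4 → ℤ) ≠ -th4 ∧ (-sr i : Fin 4 → ℤ) ≠ sr 1 + -th4 := by
  decide +kernel

theorem BX4_bt : ∀ j : Fin 6, bt4 j = -th4 ∨ bt4 j = -sr 1 ∨ (∃ i : Fin 4, i ≠ 1 ∧ bt4 j = sr i) ∨ bt4 j = th4 - sr 1 := by
  decide +kernel

theorem BX4_std (K : Type) [Field K] (k l : K) (hk0 : k ≠ 0) :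
    (∃ b, Ex C4 b ∧ cf b (-th4) = k ∧ cf b (sr 1 + -th4) = l) ∧
    (∀ i : Fin 4, i ≠ 1 → ∃ b, Ex C4 b ∧ cf b (-th4) = k ∧ cf b (-sr i) = l) ∧
    (∃ b, Ex C4 b ∧ cf b (-th4) = k ∧ cf b (sr 1) = l) ∧ ∃ b, Ex C4 b ∧ cf b (-th4) = k ∧ cf b th4 = l := by
  obtain ⟨i3, i5, i8, i9, i10, i11, i16, i17, i18, i19, i20, i2⟩ := BX4_ip
  obtain ⟨a3, a4, a5, a6, a7, a8⟩ := BX4_add
  obtain ⟨n1, n2, n8, n9, n10, n11, n12, n13, n14, n15, n16, n17, n18, n19⟩ := BX4_ne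
  obtain ⟨-, hE0, hE, -⟩ := g4_EXF K
  have hS : ∀ (α : Fin 4 → ℤ) (t : K), ip C4 α α = 2 → ∃ g : Lm C4 K ≃ₗ[K] Lm C4 K, (∀ v, g v = xe C4 (E C4 α) t v) ∧
      ∀ a, Ex C4 a → Ex C4 (g a) := by
    intro α t hα
    obtain ⟨hx, hg, -⟩ := g_XG K α hα t
    exact ⟨XG C4 α t, hx, fun a ha => (hE a ha).2.2.1 _ hg⟩
  have hsm : ∀ (c : K) (a : Lm C4 K), Ex C4 a → c ≠ 0 → Ex C4 (c • a) := fun c a ha h2 => (hE a ha).2.2.2.1 c h2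
  refine ⟨?_, ?_, ?_, ?_⟩
  · -- type 1
    obtain ⟨ε, hε⟩ : ∃ ε : K, ε = ((sg C4 (sr 1) (-th4) : ℤ) : K) := ⟨_, rfl⟩
    have hεε : ε * ε = 1 := by rw [hε]; exact sg_sq C4 _ _
    obtain ⟨g, hx, hg⟩ := hS (sr 1) (ε * l / k) i3
    refine ⟨g (k • E C4 (-th4)), hg _ (hsm k _ (hE0 _ i18) hk0), ?_, ?_⟩
    · rw [map_smul, hx, (f_ACT 4 C4 K (sr 1) _ i3).2.1 _ i18 i5, cf_smul, cf_add, cf_smul, cf_E C4 i18, cf_E C4 i16, if_pos rfl, if_neg n1]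
      ring
    · rw [map_smul, hx, (f_ACT 4 C4 K (sr 1) _ i3).2.1 _ i18 i5, cf_smul, cf_add, cf_smul, cf_E C4 i18, cf_E C4 i16, if_pos rfl, if_neg n2, ← hε]
      field_simp
      linear_combination l * hεε
  · -- type 0
    intro i hi
    obtain ⟨i4, i6, i7, i21, i22, i23⟩ := BX4_ip3 i hi
    obtain ⟨a1, a2⟩ := BX4_add3 i hi
    obtain ⟨n3, n4, n5, n6, n7⟩ := BX4_ne3 i hi
    obtain ⟨ε, hε⟩ : ∃ ε : K, ε = ((sg C4 (sr 1 + sr i - th4) (-(sr 1 + sr i)) : ℤ) : K) := ⟨_, rfl⟩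
    have hεε : ε * ε = 1 := by rw [hε]; exact sg_sq C4 _ _
    obtain ⟨ε', hε'⟩ : ∃ ε' : K, ε' = ((sg C4 (sr 1) (-(sr 1 + sr i)) : ℤ) : K) := ⟨_, rfl⟩
    have hεε' : ε' * ε' = 1 := by rw [hε']; exact sg_sq C4 _ _
    obtain ⟨g, hx, hg⟩ := hS (sr 1 + sr i - th4) (ε * k) i22
    obtain ⟨g', hx', hg'⟩ := hS (sr 1) (ε' * l) i3
    have key : g' (g (E C4 (-(sr 1 + sr i)))) = (E C4 (-(sr 1 + sr i)) + (ε' * l * ε') • E C4 (-sr i) +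
        (ε * k * ε) • (E C4 (-th4) + (ε' * l * ((sg C4 (sr 1) (-th4) : ℤ) : K)) • E C4 (sr 1 + -th4)) : Lm C4 K) := by
      rw [hx, (f_ACT 4 C4 K _ _ i22).2.1 _ i23 i6, a1, ← hε, map_add, map_smul, hx', hx', (f_ACT 4 C4 K (sr 1) _ i3).2.1 _ i23 i7,
        (f_ACT 4 C4 K (sr 1) _ i3).2.1 _ i18 i5, a2, ← hε']
    refine ⟨g' (g (E C4 (-(sr 1 + sr i)))), hg' _ (hg _ (hE0 _ i23)), ?_, ?_⟩
    · rw [key]
      simp only [cf_add, cf_smul, cf_E C4 i23, cf_E C4 i21, cf_E C4 i18, cf_E C4 i16, if_neg n3, if_neg n4, if_neg n1, if_true]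
      linear_combination k * hεε
    · rw [key]
      simp only [cf_add, cf_smul, cf_E C4 i23, cf_E C4 i21, cf_E C4 i18, cf_E C4 i16, if_neg n5, if_neg n6, if_neg n7, if_true]
      linear_combination l * hεε'
  · -- type -1
    obtain ⟨ε, hε⟩ : ∃ ε : K, ε = ((sg C4 (sr 1) (-th4) : ℤ) : K) := ⟨_, rfl⟩
    have hεε : ε * ε = 1 := by rw [hε]; exact sg_sq C4 _ _
    obtain ⟨ε', hε'⟩ : ∃ ε' : K, ε' = ((sg C4 th4 (sr 1 + -th4) : ℤ) : K) := ⟨_, rfl⟩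
    have hεε' : ε' * ε' = 1 := by rw [hε']; exact sg_sq C4 _ _
    obtain ⟨g, hx, hg⟩ := hS (sr 1) 1 i3
    obtain ⟨g', hx', hg'⟩ := hS th4 (ε * ε' * l / k) i17
    have key : g' (g (k • E C4 (-th4))) = (k • ((E C4 (-th4) - (ε * ε' * l / k) • ht C4 th4 + (ε * ε' * l / k) ^ 2 • E C4 th4) +
        ((1 : K) * ε) • (E C4 (sr 1 + -th4) + (ε * ε' * l / k * ε') • E C4 (sr 1))) : Lm C4 K) := by
      rw [map_smul, hx, (f_ACT 4 C4 K (sr 1) _ i3).2.1 _ i18 i5, ← hε, map_smul, map_add, map_smul, hx', hx', (f_ACT 4 C4 K th4 _ i17).2.2.1,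
        (f_ACT 4 C4 K th4 _ i17).2.1 _ i16 i8, a3, ← hε']
    refine ⟨g' (g (k • E C4 (-th4))), hg' _ (hg _ (hsm k _ (hE0 _ i18) hk0)), ?_, ?_⟩
    · rw [key]
      simp only [cf_add, cf_sub, cf_smul, cf_ht, cf_E C4 i18, cf_E C4 i17, cf_E C4 i16, cf_E C4 i3, if_neg n1, if_neg n8, if_neg n9, if_true]
      ring
    · rw [key]
      simp only [cf_add, cf_sub, cf_smul, cf_ht, cf_E C4 i18, cf_E C4 i17, cf_E C4 i16, cf_E C4 i3, if_neg n10, if_neg n11, if_neg n12, if_true]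
      field_simp
      linear_combination (k * l * (ε' * ε')) * hεε + k * l * hεε'
  · -- type -2
    obtain ⟨ε, hε⟩ : ∃ ε : K, ε = ((sg C4 (sr 1) (th4 - sr 1) : ℤ) : K) := ⟨_, rfl⟩
    have hεε : ε * ε = 1 := by rw [hε]; exact sg_sq C4 _ _
    obtain ⟨c, hc⟩ : ∃ c : K, c = ε * (l / k - 1) := ⟨_, rfl⟩
    obtain ⟨g, hx, hg⟩ := hS th4 1 i17
    obtain ⟨g', hx', hg'⟩ := hS (th4 - sr 1) c i19
    obtain ⟨g'', hx'', hg''⟩ := hS (sr 1) 1 i3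
    obtain ⟨ε₁, hε₁⟩ : ∃ ε : K, ε = ((sg C4 (th4 - sr 1) (-th4) : ℤ) : K) := ⟨_, rfl⟩
    obtain ⟨ε₂, hε₂⟩ : ∃ ε : K, ε = ((sg C4 (sr 1) (-th4) : ℤ) : K) := ⟨_, rfl⟩
    have k1 : g (k • E C4 (-th4)) = (k • (E C4 (-th4) - ht C4 th4 + E C4 th4) : Lm C4 K) := by
      rw [map_smul, hx, (f_ACT 4 C4 K th4 _ i17).2.2.1, one_smul, one_pow, one_smul]
    have k2 : g' (g (k • E C4 (-th4))) = (k • ((E C4 (-th4) + (c * ε₁) • E C4 (-sr 1)) - (ht C4 th4 - (c * 1) • E C4 (th4 - sr 1)) + E C4 th4) : Lm C4 K) := by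
      rw [k1, map_smul, map_add, map_sub, hx', hx', hx', (f_ACT 4 C4 K (th4 - sr 1) _ i19).2.1 _ i18 i9, a4,
        (f_ACT 4 C4 K (th4 - sr 1) _ i19).2.2.2.2 th4, i10, (f_ACT 4 C4 K (th4 - sr 1) _ i19).1 _ i17 (by rw [i10]; norm_num), ← hε₁, Int.cast_one]
    have k3 : g'' (g' (g (k • E C4 (-th4)))) = (k • (((E C4 (-th4) + ((1 : K) * ε₂) • E C4 (sr 1 + -th4)) +
        (c * ε₁) • (E C4 (-sr 1) - (1 : K) • ht C4 (sr 1) + (1 : K) ^ 2 • E C4 (sr 1))) -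
        ((ht C4 th4 - ((1 : K) * 1) • E C4 (sr 1)) - (c * 1) • (E C4 (th4 - sr 1) + ((1 : K) * ε) • E C4 th4)) + E C4 th4) : Lm C4 K) := by
      rw [k2, map_smul, map_add, map_sub, map_add, map_sub, map_smul, map_smul, hx'', hx'', hx'', hx'', hx'',
        (f_ACT 4 C4 K (sr 1) _ i3).2.1 _ i18 i5, (f_ACT 4 C4 K (sr 1) _ i3).2.2.1, (f_ACT 4 C4 K (sr 1) _ i3).2.2.2.2 th4, i2,
        (f_ACT 4 C4 K (sr 1) _ i3).2.1 _ i19 i11, a5, (f_ACT 4 C4 K (sr 1) _ i3).1 _ i17 (by rw [i2]; norm_num), ← hε₂, ← hε, Int.cast_one]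
    refine ⟨g'' (g' (g (k • E C4 (-th4)))), hg'' _ (hg' _ (hg _ (hsm k _ (hE0 _ i18) hk0))), ?_, ?_⟩
    · rw [k3]
      simp only [cf_add, cf_sub, cf_smul, cf_ht, cf_E C4 i18, cf_E C4 i17, cf_E C4 i16, cf_E C4 i3, cf_E C4 i19, cf_E C4 i20, if_neg n1, if_neg n8,
        if_neg n9, if_neg n13, if_neg n14, if_true]
      ring
    · rw [k3]
      simp only [cf_add, cf_sub, cf_smul, cf_ht, cf_E C4 i18, cf_E C4 i17, cf_E C4 i16, cf_E C4 i3, cf_E C4 i19, cf_E C4 i20, if_neg n15, if_neg n16,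
        if_neg n17, if_neg n18, if_neg n19, if_true]
      rw [hc]
      field_simp
      linear_combination (l - k) * hεε

theorem BX4 (hPR4 : PR4_stmt) : BX4_stmt := by
  intro K _ c c' hc hc' hind k k' hk0 hk0'
  obtain ⟨i3, i5, i8, i9, i10, i11, i16, i17, i18, i19, i20, i2⟩ := BX4_ip
  obtain ⟨a3, a4, a5, a6, a7, a8⟩ := BX4_add
  obtain ⟨m, hm1, hm2, hT⟩ := g4_PCL K c c' hc hc'
  have hm3 : m ≠ 2 := by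
    intro h
    obtain ⟨κ, hκ⟩ := ((g4_TPF K c c' m hT).2.2.2.2.1).1 h
    exact hind κ hκ
  obtain ⟨hAu, -, hE, -⟩ := g4_EXF K
  obtain ⟨j, hj, g, hg, κ, hκ, e1, e2⟩ := hPR4 K c c' m hT hm3
  have hfin : (∀ l : K, ∃ b, Ex C4 b ∧ cf b (-th4) = k ∧ cf b (-bt4 j) = l) → ∃ b, Ex C4 b ∧ fm C4 c b = k ∧ fm C4 c' b = k' := by
    intro hex
    obtain ⟨b, hb, h1, h2⟩ := hex (k' / κ)
    have h3 : g (g⁻¹ b) = b := by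
      change (g * g⁻¹) b = _
      rw [mul_inv_cancel]
      rfl
    refine ⟨g⁻¹ b, (hE b hb).2.2.1 _ ((GE C4 K).inv_mem hg), ?_, ?_⟩
    · rw [← (hAu g hg).fm c, e1, h3, fm_E C4 i17, h1]
    · rw [← (hAu g hg).fm c', e2, h3, fm_smul_left, fm_E C4 (bt4_spec j).1, h2]
      field_simp
  rcases BX4_bt j with h | h | ⟨i, hi, h⟩ | h
  · refine hfin fun l => ?_
    rw [h, a8]
    exact (BX4_std K k l hk0).2.2.2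
  · refine hfin fun l => ?_
    rw [h, a7]
    exact (BX4_std K k l hk0).2.2.1
  · refine hfin fun l => ?_
    rw [h]
    exact (BX4_std K k l hk0).2.1 i hi
  · refine hfin fun l => ?_
    rw [h, a6]
    exact (BX4_std K k l hk0).1

end Pool.Agent.TRI
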